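import Pool.Agent.U261.RL.Theta1
import Pool.Agent.H239R2.Flat.COEF

set_option autoImplicit false

/-!
# Project RL (MP_f1d0b6_nt): job THETA2, the inversion formula
-/

open MeasureTheory Complex Set Topology

namespace Pool.Agent.U261.RL

open Pool.Agent.Y813.RL Pool.Agent.R396.F

noncomputable section

variable {A : Matrix (Fin 20) (Fin 20) ℤ} {c : ℂ → (Fin 20 → ℂ) → ℂ}

theorem exists_L (hA : PosSymm A) :
    ∃ L : Matrix (Fin 20) (Fin 20) ℝ, Ar A = L.transpose * L := by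
  have h1 : (Ar A).PosSemidef := by
    refine Matrix.PosSemidef.of_dotProduct_mulVec_nonneg ?_ ?_
    · rw [Matrix.IsHermitian, Matrix.conjTranspose_eq_transpose_of_trivial]
      exact Ar_symm hA
    · intro x
      have := hA.nonneg x
      rw [bf_eq_dot] at this
      simpa using this
  have h2 : ∃ L : Matrix (Fin 20) (Fin 20) ℝ, Ar A = star L * L := by
    open MatrixOrder in
    exact CStarAlgebra.nonneg_iff_eq_star_mul_self.mp h1.nonneg
  obtain ⟨L, hL⟩ := h2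
  refine ⟨L, ?_⟩
  rw [hL, Matrix.star_eq_conjTranspose, Matrix.conjTranspose_eq_transpose_of_trivial]

theorem emb {L : Matrix (Fin 20) (Fin 20) ℝ} (hL : L.det ≠ 0) :
    MeasurableEmbedding (Matrix.toLin' L : (Fin 20 → ℝ) → (Fin 20 → ℝ)) := by
  have h1 : Function.Injective (Matrix.toLin' L) := by
    have := Matrix.mulVec_injective_iff_isUnit.2 ((Matrix.isUnit_iff_isUnit_det L).2
      (isUnit_iff_ne_zero.2 hL))
    intro x y hxy
    exact this (by simpa [Matrix.toLin'_apply] using hxy)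
  exact (LinearMap.isClosedEmbedding_of_injective (LinearMap.ker_eq_bot.2 h1)).measurableEmbedding

theorem integral_comp_mulVec {L : Matrix (Fin 20) (Fin 20) ℝ} (hL : L.det ≠ 0)
    (f : (Fin 20 → ℝ) → ℂ) :
    ∫ y, f (L.mulVec y) = ((|L.det|⁻¹ : ℝ) : ℂ) * ∫ u, f u := by
  have h1 := Real.map_matrix_volume_pi_eq_smul_volume_pi hL
  have h2 := (emb hL).integral_map (μ := volume) f
  rw [h1, integral_smul_measure, ENNReal.toReal_ofReal (abs_nonneg _), abs_inv] at h2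
  simp only [Matrix.toLin'_apply] at h2
  rw [← h2, Complex.real_smul]

theorem integrable_comp_mulVec {L : Matrix (Fin 20) (Fin 20) ℝ} (hL : L.det ≠ 0)
    {f : (Fin 20 → ℝ) → ℂ} (hf : Integrable f) : Integrable fun y => f (L.mulVec y) := by
  have h1 := Real.map_matrix_volume_pi_eq_smul_volume_pi hL
  have h2 := (emb hL).integrable_map_iff (μ := volume) (g := f)
  rw [h1] at h2
  have h3 := h2.1 (hf.smul_measure (by simp))
  simpa [Function.comp_def, Matrix.toLin'_apply] using h3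

/-- the Gaussian function -/
def gf (A : Matrix (Fin 20) (Fin 20) ℤ) (τ : ℂ) (μ : Fin 20 → ℤ) (y : Fin 20 → ℝ) : ℂ :=
  ee (-(bf A (fun i => (y i : ℂ)) (fun i => (y i : ℂ)) / (2 * τ))) *
      ee (-(dt μ (fun i => (y i : ℂ))))

theorem gf_eq {τ : ℂ} (hτ : 0 < τ.im) {L : Matrix (Fin 20) (Fin 20) ℝ}
    (hL : Ar A = L.transpose * L) (hd : L.det ≠ 0) (μ : Fin 20 → ℤ) (y : Fin 20 → ℝ) :
    gf A τ μ y = (fun v : Fin 20 → ℝ => cexp (-(Real.pi * Complex.I / τ) *
      ∑ i, (v i : ℂ) ^ 2 + ∑ i, (-(2 * Real.pi * Complex.I) *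
        ((((L⁻¹).transpose.mulVec fun i => (μ i : ℝ)) i : ℝ) : ℂ)) * v i)) (L.mulVec y) := by
  have hτ0 : τ ≠ 0 := by
    rintro rfl
    simp at hτ
  have h1 : bf A (fun i => (y i : ℂ)) (fun i => (y i : ℂ)) =
      ∑ i, ((L.mulVec y i : ℝ) : ℂ) ^ 2 := by
    rw [bf_ofReal, bf_eq_dot, hL, ← Matrix.mulVec_mulVec, Matrix.dotProduct_mulVec,
      Matrix.vecMul_transpose]
    simp only [dotProduct]
    push_cast
    exact Finset.sum_congr rfl fun i _ => by ring
  have h2 : dt μ (fun i => ((y i : ℝ) : ℂ)) =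
      ∑ i, ((((L⁻¹).transpose.mulVec fun i => (μ i : ℝ)) i : ℝ) : ℂ) * (L.mulVec y i : ℝ) := by
    have h3 : dt μ (fun i => ((y i : ℝ) : ℂ)) = ((dt μ y : ℝ) : ℂ) := by
      simp [dt]
    have h4 : dt μ y = ((L⁻¹).transpose.mulVec fun i => (μ i : ℝ)) ⬝ᵥ (L.mulVec y) := by
      rw [Matrix.dotProduct_mulVec, ← Matrix.mulVec_transpose, Matrix.mulVec_mulVec,
        ← Matrix.transpose_mul, Matrix.nonsing_inv_mul _ (isUnit_iff_ne_zero.2 hd),
        Matrix.transpose_one, Matrix.one_mulVec]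
      simp [dt, dotProduct]
    rw [h3, h4]
    simp [dotProduct]
  unfold gf
  rw [h1, h2]
  unfold ee
  simp only
  rw [← Complex.exp_add]
  congr 1
  have h5 : ∑ i, (-(2 * (Real.pi : ℂ) * Complex.I) *
        ((((L⁻¹).transpose.mulVec fun i => (μ i : ℝ)) i : ℝ) : ℂ)) * ((L.mulVec y i : ℝ) : ℂ) =
      -(2 * Real.pi * Complex.I) *
      ∑ i, ((((L⁻¹).transpose.mulVec fun i => (μ i : ℝ)) i : ℝ) : ℂ) * (L.mulVec y i : ℝ) := by
    rw [Finset.mul_sum]
    exact Finset.sum_congr rfl fun i _ => by ring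
  rw [h5]
  field_simp
  try ring

theorem re_pos {τ : ℂ} (hτ : 0 < τ.im) : 0 < (Real.pi * Complex.I / τ).re := by
  have hpi := Real.pi_pos
  have hn : 0 < Complex.normSq τ := by
    rw [Complex.normSq_pos]
    rintro rfl
    simp at hτ
  rw [Complex.div_re]
  simp only [Complex.mul_re, Complex.ofReal_re, Complex.I_re, mul_zero, Complex.ofReal_im,
    Complex.I_im, mul_one, sub_self, zero_mul, zero_div, Complex.mul_im, zero_add, add_zero]
  positivity

theorem det_L_sq (A : Matrix (Fin 20) (Fin 20) ℤ) {L : Matrix (Fin 20) (Fin 20) ℝ}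
    (hL : Ar A = L.transpose * L) :
    (A.det : ℝ) = L.det ^ 2 := by
  have h1 : (A.det : ℝ) = (Ar A).det := by
    have := RingHom.map_det (Int.castRingHom ℝ) A
    simpa [RingHom.mapMatrix_apply] using this
  rw [h1, hL, Matrix.det_mul, Matrix.det_transpose, sq]

theorem det_L_ne (hA : PosSymm A) {L : Matrix (Fin 20) (Fin 20) ℝ}
    (hL : Ar A = L.transpose * L) : L.det ≠ 0 := by
  intro h0
  apply det_Ar_ne hA
  rw [hL, Matrix.det_mul, h0, mul_zero]

theorem gf_integrable (hA : PosSymm A) {τ : ℂ} (hτ : 0 < τ.im) (μ : Fin 20 → ℤ) :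
    Integrable (gf A τ μ) := by
  obtain ⟨L, hL⟩ := exists_L hA
  have hd := det_L_ne hA hL
  have h1 := integrable_comp_mulVec hd (GaussianFourier.integrable_cexp_neg_mul_sum_add (re_pos hτ)
    (fun i => (-(2 * Real.pi * Complex.I) *
        ((((L⁻¹).transpose.mulVec fun i => (μ i : ℝ)) i : ℝ) : ℂ))))
  refine h1.congr (Filter.Eventually.of_forall fun y => ?_)
  exact (gf_eq hτ hL hd μ y).symm

theorem gf_integral (hA : PosSymm A) {τ : ℂ} (hτ : 0 < τ.im) (μ : Fin 20 → ℤ) :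
    ∫ y, gf A τ μ y = -(τ ^ 10) / (Real.sqrt (A.det : ℝ) : ℂ) * ee (τ * (bd A μ μ : ℂ) / 2) := by
  obtain ⟨L, hL⟩ := exists_L hA
  have hd := det_L_ne hA hL
  have hτ0 : τ ≠ 0 := by
    rintro rfl
    simp at hτ
  have hpi : (Real.pi : ℂ) ≠ 0 := by exact_mod_cast Real.pi_ne_zero
  simp only [gf_eq hτ hL hd μ]
  rw [integral_comp_mulVec hd (fun v : Fin 20 → ℝ => cexp (-(Real.pi * Complex.I / τ) *
      ∑ i, (v i : ℂ) ^ 2 + ∑ i, (-(2 * Real.pi * Complex.I) *
        ((((L⁻¹).transpose.mulVec fun i => (μ i : ℝ)) i : ℝ) : ℂ)) * v i)),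
    GaussianFourier.integral_cexp_neg_mul_sum_add (re_pos hτ)]
  have h1 : Real.sqrt (A.det : ℝ) = |L.det| := by
    rw [det_L_sq A hL, Real.sqrt_sq_eq_abs]
  have h2 : ((Real.pi : ℂ) / (Real.pi * Complex.I / τ)) ^ ((Fintype.card (Fin 20) : ℂ) / 2) =
      -(τ ^ 10) := by
    have h3 : ((Fintype.card (Fin 20) : ℂ) / 2) = ((10 : ℕ) : ℂ) := by
      rw [Fintype.card_fin]
      norm_num
    rw [h3, Complex.cpow_natCast]
    have h4 : (Real.pi : ℂ) / (Real.pi * Complex.I / τ) = -Complex.I * τ := by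
      field_simp
      rw [Complex.I_sq]
      ring
    rw [h4, mul_pow]
    have h5 : (-Complex.I) ^ 10 = -1 := by
      rw [show (10 : ℕ) = 2 * 5 by norm_num, pow_mul, neg_sq, Complex.I_sq]
      norm_num
    rw [h5]
    ring
  have h6 : (∑ i, (-(2 * (Real.pi : ℂ) * Complex.I) *
        ((((L⁻¹).transpose.mulVec fun i => (μ i : ℝ)) i : ℝ) : ℂ)) ^ 2) /
        (4 * (Real.pi * Complex.I / τ)) = 2 * Real.pi * Complex.I * (τ * (bd A μ μ : ℂ) / 2) := by
    have h7 : bd A μ μ = ∑ i, ((L⁻¹).transpose.mulVec (fun i => (μ i : ℝ)) i) ^ 2 := by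
      rw [bd_def, hL, Matrix.mul_inv_rev, ← Matrix.mulVec_mulVec, Matrix.dotProduct_mulVec,
        ← Matrix.mulVec_transpose, Matrix.transpose_nonsing_inv]
      simp only [dotProduct]
      exact Finset.sum_congr rfl fun i _ => by rw [sq]
    have h8 : (∑ i, (-(2 * (Real.pi : ℂ) * Complex.I) *
        ((((L⁻¹).transpose.mulVec fun i => (μ i : ℝ)) i : ℝ) : ℂ)) ^ 2) =
        -(4 * Real.pi ^ 2) * (bd A μ μ : ℂ) := by
      rw [h7]
      push_cast
      rw [Finset.mul_sum]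
      refine Finset.sum_congr rfl fun i _ => ?_
      rw [mul_pow, neg_sq, mul_pow, mul_pow, Complex.I_sq]
      ring
    rw [h8]
    field_simp
    rw [Complex.I_sq]
    ring
  rw [h2, h6, h1]
  unfold ee
  push_cast
  ring

/-- the shifted Gaussian function -/
def gsh (A : Matrix (Fin 20) (Fin 20) ℤ) (τ : ℂ) (μ ρ : Fin 20 → ℤ) (y : Fin 20 → ℝ) : ℂ :=
  ee (-(((bd A ρ ρ : ℂ) - 2 * dt ρ (fun i => (y i : ℂ)) +
    bf A (fun i => (y i : ℂ)) (fun i => (y i : ℂ))) / (2 * τ))) *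
      ee (-(dt μ (fun i => (y i : ℂ))))

theorem dt_ofReal (μ : Fin 20 → ℤ) (y : Fin 20 → ℝ) :
    dt μ (fun i => ((y i : ℝ) : ℂ)) = ((dt μ y : ℝ) : ℂ) := by
  simp [dt]

theorem gsh_eq (hA : PosSymm A) (τ : ℂ) (μ ρ : Fin 20 → ℤ) (y : Fin 20 → ℝ) :
    gsh A τ μ ρ y = ee (-(bd A μ ρ : ℂ)) *
      gf A τ μ (y - ((Ar A)⁻¹).mulVec (fun j => (ρ j : ℝ))) := by
  obtain ⟨a, ha⟩ : ∃ a, a = ((Ar A)⁻¹).mulVec (fun j => (ρ j : ℝ)) := ⟨_, rfl⟩
  rw [← ha]
  have hAa : (Ar A).mulVec a = fun j => (ρ j : ℝ) := by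
    rw [ha, Matrix.mulVec_mulVec, Matrix.mul_nonsing_inv _ (isUnit_iff_ne_zero.2 (det_Ar_ne hA)),
      Matrix.one_mulVec]
  have h1 : ∀ x : Fin 20 → ℝ, bf A x a = dt ρ x := by
    intro x
    rw [bf_eq_dot, hAa]
    simp only [dotProduct, dt]
    exact Finset.sum_congr rfl fun i _ => by ring
  have h2 : ∀ ν : Fin 20 → ℤ, dt ν a = bd A ν ρ := by
    intro ν
    rw [bd_def, ← ha]
    simp [dt, dotProduct]
  have h3 : bf A (y - a) (y - a) = bd A ρ ρ - 2 * dt ρ y + bf A y y := by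
    rw [bf_sub_left, bf_sub_right, bf_sub_right, bf_comm hA.symm a y, h1, h1, h2]
    ring
  have h4 : dt μ (y - a) = dt μ y - bd A μ ρ := by
    have := dt_add μ (y - a) a
    rw [sub_add_cancel, h2] at this
    linarith
  unfold gsh gf
  rw [bf_ofReal, dt_ofReal, dt_ofReal, bf_ofReal, dt_ofReal, h3, h4]
  rw [← ee_add, ← ee_add, ← ee_add]
  congr 1
  push_cast
  ring

theorem gsh_integrable (hA : PosSymm A) {τ : ℂ} (hτ : 0 < τ.im) (μ ρ : Fin 20 → ℤ) :
    Integrable (gsh A τ μ ρ) := by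
  have h1 := ((gf_integrable hA hτ μ).comp_sub_right
    (((Ar A)⁻¹).mulVec (fun j => (ρ j : ℝ)))).const_mul (ee (-(bd A μ ρ : ℂ)))
  refine h1.congr (Filter.Eventually.of_forall fun y => ?_)
  exact (gsh_eq hA τ μ ρ y).symm

theorem gsh_integral (hA : PosSymm A) {τ : ℂ} (hτ : 0 < τ.im) (μ ρ : Fin 20 → ℤ) :
    ∫ y, gsh A τ μ ρ y = ee (-(bd A μ ρ : ℂ)) *
      (-(τ ^ 10) / (Real.sqrt (A.det : ℝ) : ℂ) * ee (τ * (bd A μ μ : ℂ) / 2)) := by
  simp only [gsh_eq hA τ μ ρ]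
  rw [integral_const_mul, integral_sub_right_eq_self (fun y => gf A τ μ y), gf_integral hA hτ]

/-- the terms of the expansion -/
theorem term_eq (hA : PosSymm A) (h : JacobiZero A c) {τ σ : ℂ} (hτ : 0 < τ.im) (hσ : 0 < σ.im)
    (hστ : σ = -1 / τ) (μ ρ v : Fin 20 → ℤ) (y : Fin 20 → ℝ) :
    fc c (ρ + A.mulVec v) σ * ee (dt (ρ + A.mulVec v) (fun i => (y i : ℂ) / τ)) *
      gf A τ μ y = vf A c ρ σ * gsh A τ μ ρ (fun i => y i - v i) := by
  have hτ0 : τ ≠ 0 := by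
    rintro rfl
    simp at hτ
  have h1 : fc c (ρ + A.mulVec v) σ =
      ee (σ * (bd A (ρ + A.mulVec v) (ρ + A.mulVec v) : ℂ) / 2) * vf A c ρ σ := by
    rw [← vf_mulVec hA h hσ ρ v]
    unfold vf
    rw [← mul_assoc, ← ee_add]
    have : σ * (bd A (ρ + A.mulVec v) (ρ + A.mulVec v) : ℂ) / 2 +
      -(σ * (bd A (ρ + A.mulVec v) (ρ + A.mulVec v) : ℂ) / 2) = 0 := by ring
    rw [this, ee_zero, one_mul]
  have h2 : dt (ρ + A.mulVec v) (fun i => (y i : ℂ) / τ) =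
      ((dt ρ y + bf A (fun i => (v i : ℝ)) y : ℝ) : ℂ) / τ := by
    have h3 : (fun i => ((y i : ℝ) : ℂ) / τ) = τ⁻¹ • (fun i => ((y i : ℝ) : ℂ)) := by
      funext i
      simp only [Pi.smul_apply, smul_eq_mul]
      rw [div_eq_inv_mul]
    rw [h3, dt_smul, dt_add_left, dt_mulVecC, dt_ofReal]
    have h4 : bf A (fun i => ((y i : ℝ) : ℂ)) (fun i => (v i : ℂ)) =
        ((bf A (fun i => (v i : ℝ)) y : ℝ) : ℂ) := by
      rw [bf_comm hA.symm, ← bf_ofReal]
      simp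
    rw [h4]
    push_cast
    ring
  have hw : (fun i => ((y i - (v i : ℝ) : ℝ) : ℂ)) = fun i => (((y - fun i => (v i : ℝ)) i : ℝ) : ℂ) := rfl
  have h5 : bf A (y - fun i => (v i : ℝ)) (y - fun i => (v i : ℝ)) =
      bf A y y - 2 * bf A (fun i => (v i : ℝ)) y + ((bf A v v : ℤ) : ℝ) := by
    rw [bf_sub_left, bf_sub_right, bf_sub_right, bf_comm hA.symm y (fun i => (v i : ℝ)),
      bf_intCast]
    ring
  have h6 : ∀ ν : Fin 20 → ℤ, dt ν (y - fun i => (v i : ℝ)) = dt ν y - ((dt ν v : ℤ) : ℝ) := by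
    intro ν
    simp [dt, mul_sub, Finset.sum_sub_distrib]
  unfold gf gsh
  simp only
  rw [hw, bf_ofReal, bf_ofReal, dt_ofReal, dt_ofReal, dt_ofReal, h1, h2, h5, h6, h6, bd_shift hA]
  have h7 : ∀ a b x y z : ℂ, a * b * x * (y * z) = b * (a * x * y * z) := by
    intros; ring
  rw [h7, ← ee_add, ← ee_add, ← ee_add, ← ee_add]
  congr 1
  rw [← ee_add_int _ (dt μ v)]
  congr 1
  rw [hστ]
  push_cast
  field_simp
  ring

theorem jobTheta2 : JobTheta2 := by
  intro A c R hA h hR μ τ hτ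
  have hτ0 : τ ≠ 0 := by
    rintro rfl
    simp at hτ
  obtain ⟨σ, hστ⟩ : ∃ σ : ℂ, σ = -1 / τ := ⟨_, rfl⟩
  rw [← hστ]
  have hσ : 0 < σ.im := by
    rw [hστ, Complex.div_im]
    have hn : 0 < Complex.normSq τ := Complex.normSq_pos.2 hτ0
    simp only [Complex.neg_im, Complex.one_im, neg_zero, zero_mul, zero_div, Complex.neg_re,
      Complex.one_re, zero_sub, neg_mul, one_mul, neg_div, neg_neg]
    positivity
  -- pointwise expansion
  have hsum : ∀ y : Fin 20 → ℝ, HasSum (fun ν : Fin 20 → ℤ => fc c ν σ *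
      ee (dt ν (fun i => (y i : ℂ) / τ)) * gf A τ μ y)
      (c τ (fun i => (y i : ℂ)) * ee (-(dt μ (fun i => (y i : ℂ))))) := by
    intro y
    have h1 := (fourier_expansion h hσ (fun i => (y i : ℂ) / τ)).mul_right (gf A τ μ y)
    have h2 : c σ (fun i => (y i : ℂ) / τ) * gf A τ μ y =
        c τ (fun i => (y i : ℂ)) * ee (-(dt μ (fun i => (y i : ℂ)))) := by
      rw [hστ, h.S τ (fun i => (y i : ℂ)) hτ]
      unfold gf
      have : ∀ a b x z : ℂ, a * b * (x * z) = (a * x) * (b * z) := by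
        intros; ring
      rw [this, ← ee_add, add_neg_cancel, ee_zero, one_mul]
    rw [h2] at h1
    exact h1
  -- the bound
  have hgc : Continuous (gf A τ μ) := by
    unfold gf
    refine (ee_diff.continuous.comp ?_).mul (ee_diff.continuous.comp ?_)
    · have h1 : Continuous fun y : Fin 20 → ℝ => (fun i => ((y i : ℝ) : ℂ)) := by fun_prop
      have h2 : Continuous fun y : Fin 20 → ℝ =>
          bf A (fun i => ((y i : ℝ) : ℂ)) (fun i => ((y i : ℝ) : ℂ)) := bf_contC A h1 h1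
      exact (h2.div_const _).neg
    · exact ((dt_continuousC μ).comp (by fun_prop)).neg
  obtain ⟨K, hK⟩ := (isCompact_Icc (a := (0 : Fin 20 → ℝ)) (b := 1)).exists_bound_of_continuousOn
    hgc.continuousOn
  obtain ⟨M, hM⟩ := fc_bound_on h hσ (1 / ‖τ‖)
  have hFc : ∀ ν : Fin 20 → ℤ, Continuous fun y : Fin 20 → ℝ => fc c ν σ *
      ee (dt ν (fun i => (y i : ℂ) / τ)) * gf A τ μ y := by
    intro ν
    refine (continuous_const.mul (ee_diff.continuous.comp ?_)).mul hgc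
    exact (dt_continuousC ν).comp (by fun_prop)
  have hFb : ∀ ν : Fin 20 → ℤ, ∀ y ∈ Icc (0 : Fin 20 → ℝ) 1,
      ‖fc c ν σ * ee (dt ν (fun i => (y i : ℂ) / τ)) * gf A τ μ y‖ ≤
      M * (∏ i, Real.exp (-(2 * Real.pi * |(ν i : ℝ)|))) * K := by
    intro ν y hy
    rw [norm_mul]
    have h1 : (fun i => ((y i : ℝ) : ℂ) / τ) ∈ Metric.closedBall (0 : Fin 20 → ℂ) (1 / ‖τ‖) := by
      rw [mem_closedBall_zero_iff, pi_norm_le_iff_of_nonneg (by positivity)]
      intro i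
      rw [norm_div, Complex.norm_real, Real.norm_eq_abs]
      refine div_le_div_of_nonneg_right ?_ (norm_nonneg _)
      rw [abs_le]
      have := hy.1 i
      have := hy.2 i
      simp only [Pi.zero_apply, Pi.one_apply] at *
      constructor <;> linarith
    have h2 := hM _ h1 ν
    exact mul_le_mul h2 (hK y hy) (norm_nonneg _) ((norm_nonneg _).trans h2)
  have hvol : (volume : Measure (Fin 20 → ℝ)).real (Icc (0 : Fin 20 → ℝ) 1) = 1 := by
    rw [Measure.real, Real.volume_Icc_pi]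
    simp
  have hint : HasSum (fun ν : Fin 20 → ℤ => ∫ y in Icc (0 : Fin 20 → ℝ) 1, fc c ν σ *
      ee (dt ν (fun i => (y i : ℂ) / τ)) * gf A τ μ y) (fc c μ τ) := by
    have h1 := hasSum_integral_of_summable_integral_norm
      (μ := (volume : Measure (Fin 20 → ℝ)).restrict (Icc 0 1))
      (F := fun (ν : Fin 20 → ℤ) (y : Fin 20 → ℝ) => fc c ν σ *
      ee (dt ν (fun i => (y i : ℂ) / τ)) * gf A τ μ y)
      (fun ν => ((hFc ν).continuousOn.integrableOn_compact isCompact_Icc)) (by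
        refine Summable.of_nonneg_of_le (fun ν => integral_nonneg fun y => norm_nonneg _)
          (fun ν => ?_) (((summable_prod_exp 20).mul_left M).mul_right K)
        have h2 := norm_setIntegral_le_of_norm_le_const (μ := (volume : Measure (Fin 20 → ℝ)))
          (s := Icc (0 : Fin 20 → ℝ) 1) (f := fun y => ‖fc c ν σ *
            ee (dt ν (fun i => (y i : ℂ) / τ)) * gf A τ μ y‖) isCompact_Icc.measure_lt_top
          (fun y hy => by rw [norm_norm]; exact hFb ν y hy)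
        rw [hvol, mul_one] at h2
        exact (le_abs_self _).trans h2)
    have h3 : ∫ y in Icc (0 : Fin 20 → ℝ) 1, (∑' ν : Fin 20 → ℤ, fc c ν σ *
      ee (dt ν (fun i => (y i : ℂ) / τ)) * gf A τ μ y) = fc c μ τ := by
      unfold fc
      refine setIntegral_congr_fun measurableSet_Icc fun y _ => ?_
      exact (hsum y).tsum_eq
    rw [h3] at h1
    exact h1
  -- reindexing
  have hbij : Function.Bijective (fun p : R × (Fin 20 → ℤ) => (p.1 : Fin 20 → ℤ) + A.mulVec p.2) := by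
    constructor
    · rintro ⟨⟨ρ, hρ⟩, v⟩ ⟨⟨ρ', hρ'⟩, v'⟩ heq
      simp only at heq
      have h1 := hR (ρ + A.mulVec v)
      have h2 : ρ = ρ' := h1.unique ⟨hρ, v, rfl⟩ ⟨hρ', v', heq⟩
      subst h2
      have h3 : A.mulVec v = A.mulVec v' := by simpa using heq
      have h4 : v = v' := by
        have h5 : bf A (fun i => ((v - v') i : ℝ)) (fun i => ((v - v') i : ℝ)) = 0 := by
          rw [bf_intCast, ← dt_mulVec, Matrix.mulVec_sub, h3, sub_self]
          simp [dt]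
        have h6 := hA.eq_zero h5
        funext i
        have h7 := congrFun h6 i
        simp only [Pi.sub_apply, Pi.zero_apply, Int.cast_sub] at h7
        have h8 : (v i : ℝ) = v' i := by linarith
        exact_mod_cast h8
      subst h4
      rfl
    · intro ν
      obtain ⟨ρ, ⟨hρ, v, hv⟩, _⟩ := hR ν
      exact ⟨⟨⟨ρ, hρ⟩, v⟩, hv.symm⟩
  have h1 := (Equiv.ofBijective _ hbij).hasSum_iff.2 hint
  have h2 : ∀ ρ : R, HasSum (fun v : Fin 20 → ℤ => ∫ y in Icc (0 : Fin 20 → ℝ) 1,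
      fc c ((ρ : Fin 20 → ℤ) + A.mulVec v) σ *
      ee (dt ((ρ : Fin 20 → ℤ) + A.mulVec v) (fun i => (y i : ℂ) / τ)) * gf A τ μ y)
      (vf A c ρ σ * (ee (-(bd A μ ρ : ℂ)) *
        (-(τ ^ 10) / (Real.sqrt (A.det : ℝ) : ℂ) * ee (τ * (bd A μ μ : ℂ) / 2)))) := by
    intro ρ
    have h3 := (H239R2.Flat.COEF_unfold 20 (gsh A τ μ ρ) (gsh_integrable hA hτ μ ρ)).mul_left
      (vf A c ρ σ)
    rw [gsh_integral hA hτ] at h3
    refine h3.congr_fun fun v => ?_
    rw [← integral_const_mul]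
    have h4 := integral_cu (fun y => vf A c (ρ : Fin 20 → ℤ) σ *
      gsh A τ μ (ρ : Fin 20 → ℤ) (fun i => y i - v i))
    refine Eq.trans ?_ h4.symm
    refine setIntegral_congr_fun measurableSet_Icc fun y _ => ?_
    exact term_eq hA h hτ hσ hστ μ ρ v y
  have h5 := h1.prod_fiberwise h2
  have h6 := h5.unique (hasSum_fintype _)
  have h7 : fc c μ τ = ∑ ρ ∈ R, vf A c ρ σ * (ee (-(bd A μ ρ : ℂ)) *
        (-(τ ^ 10) / (Real.sqrt (A.det : ℝ) : ℂ) * ee (τ * (bd A μ μ : ℂ) / 2))) := by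
    rw [h6]
    exact Finset.sum_coe_sort R (fun ρ => vf A c ρ σ * (ee (-(bd A μ ρ : ℂ)) *
        (-(τ ^ 10) / (Real.sqrt (A.det : ℝ) : ℂ) * ee (τ * (bd A μ μ : ℂ) / 2))))
  have h8 : vf A c μ τ = ee (-(τ * (bd A μ μ : ℂ) / 2)) * fc c μ τ := rfl
  rw [h8, h7, Finset.mul_sum, Finset.mul_sum]
  refine Finset.sum_congr rfl fun ρ _ => ?_
  have h9 : ee (-(τ * (bd A μ μ : ℂ) / 2)) * ee (τ * (bd A μ μ : ℂ) / 2) = 1 := by
    rw [← ee_add, neg_add_cancel, ee_zero]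
  calc _ = (ee (-(τ * (bd A μ μ : ℂ) / 2)) * ee (τ * (bd A μ μ : ℂ) / 2)) *
        (-(τ ^ 10) / (Real.sqrt (A.det : ℝ) : ℂ) * (ee (-(bd A μ ρ : ℂ)) * vf A c ρ σ)) := by ring
    _ = _ := by rw [h9, one_mul]

end

end Pool.Agent.U261.RL
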