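import Pool.Agent.Y813.RL.Exp
import Pool.Agent.Y813.RL.Gen
import Pool.Agent.R396.F.Th1a

set_option autoImplicit false

/-!
# Project RL (MP_f1d0b6_nt): job THETA1, Fourier facts on Jacobi forms of weight 0 and index 1
-/

open MeasureTheory Complex Set Topology

namespace Pool.Agent.U261.RL

open Pool.Agent.Y813.RL Pool.Agent.R396.F

noncomputable section

variable {A : Matrix (Fin 20) (Fin 20) ℤ} {c : ℂ → (Fin 20 → ℂ) → ℂ}

theorem dt_intCast (μ v : Fin 20 → ℤ) :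
    dt μ (fun i => (v i : ℂ)) = ((dt μ v : ℤ) : ℂ) := by
  simp [dt]

theorem dt_continuousC (μ : Fin 20 → ℤ) : Continuous fun x : Fin 20 → ℂ => dt μ x := by
  unfold dt
  fun_prop

theorem dt_diffC (μ : Fin 20 → ℤ) : Differentiable ℂ fun x : Fin 20 → ℂ => dt μ x := by
  unfold dt
  fun_prop

theorem ee_diff : Differentiable ℂ ee := by
  unfold ee
  fun_prop

theorem ee_add_int (x : ℂ) (n : ℤ) : ee (x + n) = ee x := by
  rw [ee_add, ee_int, mul_one]

/-- the slice of a Jacobi form is entire -/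
theorem slice_diff (h : JacobiZero A c) {τ : ℂ} (hτ : 0 < τ.im) : Differentiable ℂ (c τ) := by
  rw [← differentiableOn_univ]
  refine h.holo.comp (f := fun z : Fin 20 → ℂ => (τ, z)) (by fun_prop) fun z _ => hτ

/-- the integrand of the Fourier coefficients -/
def gi (c : ℂ → (Fin 20 → ℂ) → ℂ) (μ : Fin 20 → ℤ) (τ : ℂ) (z : Fin 20 → ℂ) : ℂ :=
  c τ z * ee (-(dt μ z))

theorem gi_diff (h : JacobiZero A c) {τ : ℂ} (hτ : 0 < τ.im) (μ : Fin 20 → ℤ) :
    Differentiable ℂ (gi c μ τ) :=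
  (slice_diff h hτ).mul (ee_diff.comp (dt_diffC μ).neg)

theorem gi_per (h : JacobiZero A c) {τ : ℂ} (hτ : 0 < τ.im) (μ : Fin 20 → ℤ)
    (z : Fin 20 → ℂ) (v : Fin 20 → ℤ) : gi c μ τ (fun i => z i + (v i : ℂ)) = gi c μ τ z := by
  unfold gi
  rw [h.perz τ z v hτ]
  congr 1
  have : -(dt μ (fun i => z i + (v i : ℂ))) = -(dt μ z) + ((-(dt μ v) : ℤ) : ℂ) := by
    have h1 := dt_add μ z (fun i => (v i : ℂ))
    have h2 : (z + fun i => (v i : ℂ)) = fun i => z i + (v i : ℂ) := rfl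
    rw [h2, dt_intCast] at h1
    rw [h1]
    push_cast
    ring
  rw [this, ee_add_int]

theorem fc_shift (h : JacobiZero A c) {τ : ℂ} (hτ : 0 < τ.im) (μ : Fin 20 → ℤ)
    (w : Fin 20 → ℂ) : fc c μ τ =
      ∫ y in Set.Icc (0 : Fin 20 → ℝ) 1, c τ (fun i => w i + (y i : ℂ)) *
        ee (-(dt μ (fun i => w i + (y i : ℂ)))) :=
  (shift_const (gi_diff h hτ μ) (gi_per h hτ μ) w).symm

theorem fc_diff (h : JacobiZero A c) (μ : Fin 20 → ℤ) :
    DifferentiableOn ℂ (fc c μ) {τ | 0 < τ.im} := by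
  have hU : IsOpen {τ : ℂ | 0 < τ.im} := isOpen_lt continuous_const Complex.continuous_im
  refine differentiableOn_setIntegral (E := ℂ) (volume : Measure (Fin 20 → ℝ))
      (K := Icc (0 : Fin 20 → ℝ) 1) isCompact_Icc measurableSet_Icc
      (isCompact_Icc.measure_lt_top) (U := {τ : ℂ | 0 < τ.im}) hU
      (f := fun τ y => c τ (fun i => (y i : ℂ)) * ee (-(dt μ (fun i => (y i : ℂ))))) ?_ ?_
  · refine ContinuousOn.mul ?_ ?_
    · refine h.holo.continuousOn.comp (f := fun q : ℂ × (Fin 20 → ℝ) =>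
        (q.1, fun i => ((q.2 i : ℝ) : ℂ))) (by fun_prop) ?_
      rintro q ⟨hq, _⟩
      exact hq
    · refine Continuous.continuousOn ?_
      exact ee_diff.continuous.comp (((dt_continuousC μ).comp (by fun_prop)).neg)
  · intro y _
    refine DifferentiableOn.mul ?_ (differentiableOn_const _)
    exact h.holo.comp (f := fun τ : ℂ => (τ, fun i => ((y i : ℝ) : ℂ))) (by fun_prop)
      fun τ hτ => hτ

theorem fc_per (h : JacobiZero A c) {τ : ℂ} (hτ : 0 < τ.im) (μ : Fin 20 → ℤ) :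
    fc c μ (τ + 1) = fc c μ τ := by
  unfold fc
  simp only [h.perτ τ _ hτ]

/-! ### the dual form -/

/-- the real Gram matrix -/
abbrev Ar (A : Matrix (Fin 20) (Fin 20) ℤ) : Matrix (Fin 20) (Fin 20) ℝ :=
  A.map (Int.cast : ℤ → ℝ)

theorem bf_eq_dot (x y : Fin 20 → ℝ) : bf A x y = x ⬝ᵥ (Ar A).mulVec y := by
  simp [bf, dotProduct, Matrix.mulVec, Finset.mul_sum, mul_assoc]

theorem det_Ar_ne (hA : PosSymm A) : (Ar A).det ≠ 0 := by
  intro h0
  obtain ⟨v, hv, hv0⟩ := Matrix.exists_mulVec_eq_zero_iff.2 h0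
  have h1 := hA.pos v hv
  rw [bf_eq_dot, hv0, dotProduct_zero] at h1
  exact lt_irrefl _ h1

theorem Ar_symm (hA : PosSymm A) : (Ar A).transpose = Ar A := by
  have h1 : A.transpose = A := hA.symm
  rw [← Matrix.transpose_map, h1]

theorem bd_def (μ ν : Fin 20 → ℤ) :
    bd A μ ν = (fun i => (μ i : ℝ)) ⬝ᵥ ((Ar A)⁻¹).mulVec (fun j => (ν j : ℝ)) := rfl

theorem bd_comm (hA : PosSymm A) (μ ν : Fin 20 → ℤ) : bd A μ ν = bd A ν μ := by
  rw [bd_def, bd_def, Matrix.dotProduct_mulVec, ← Matrix.mulVec_transpose,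
    Matrix.transpose_nonsing_inv, Ar_symm hA, dotProduct_comm]

theorem bd_add_right (μ ν ρ : Fin 20 → ℤ) : bd A μ (ν + ρ) = bd A μ ν + bd A μ ρ := by
  rw [bd_def, bd_def, bd_def, ← dotProduct_add, ← Matrix.mulVec_add]
  congr 2
  funext i
  simp

theorem bd_add_left (μ ν ρ : Fin 20 → ℤ) : bd A (μ + ν) ρ = bd A μ ρ + bd A ν ρ := by
  rw [bd_def, bd_def, bd_def, ← add_dotProduct]
  congr 1
  funext i
  simp

theorem cast_mulVec (v : Fin 20 → ℤ) :
    (fun i => ((A.mulVec v i : ℤ) : ℝ)) = (Ar A).mulVec fun i => (v i : ℝ) := by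
  funext i
  simp [Matrix.mulVec, dotProduct]

theorem bd_mulVec_right (hA : PosSymm A) (μ v : Fin 20 → ℤ) :
    bd A μ (A.mulVec v) = ((dt μ v : ℤ) : ℝ) := by
  rw [bd_def, cast_mulVec, Matrix.mulVec_mulVec, Matrix.nonsing_inv_mul _ (by
    rw [isUnit_iff_ne_zero]; exact det_Ar_ne hA), Matrix.one_mulVec]
  simp [dt, dotProduct]

theorem bd_mulVec_left (hA : PosSymm A) (μ v : Fin 20 → ℤ) :
    bd A (A.mulVec v) μ = ((dt μ v : ℤ) : ℝ) := by
  rw [bd_comm hA, bd_mulVec_right hA]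

theorem dt_mulVec (v w : Fin 20 → ℤ) : dt (A.mulVec v) w = bf A w v := by
  simp only [dt, bf, Matrix.mulVec, dotProduct, Int.cast_id, Finset.sum_mul]
  exact Finset.sum_congr rfl fun i _ => Finset.sum_congr rfl fun j _ => by ring

theorem bd_shift (hA : PosSymm A) (μ v : Fin 20 → ℤ) :
    bd A (μ + A.mulVec v) (μ + A.mulVec v) = bd A μ μ + 2 * ((dt μ v : ℤ) : ℝ) +
      ((bf A v v : ℤ) : ℝ) := by
  rw [bd_add_left, bd_add_right, bd_add_right, bd_mulVec_right hA, bd_mulVec_left hA,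
    bd_mulVec_right hA, dt_mulVec]
  ring

/-! ### theta components -/

theorem dt_mulVecC (v : Fin 20 → ℤ) (z : Fin 20 → ℂ) :
    dt (A.mulVec v) z = bf A z (fun i => (v i : ℂ)) := by
  simp only [dt, bf, Matrix.mulVec, dotProduct, Int.cast_sum, Int.cast_mul, Finset.sum_mul]
  exact Finset.sum_congr rfl fun i _ => Finset.sum_congr rfl fun j _ => by ring

/-- **Elliptic law for the Fourier coefficients.** -/
theorem fc_mulVec (hA : PosSymm A) (h : JacobiZero A c) {τ : ℂ} (hτ : 0 < τ.im)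
    (μ v : Fin 20 → ℤ) :
    fc c μ τ = ee (-(τ * ((dt μ v : ℤ) : ℂ) + τ * ((bf A v v : ℤ) : ℂ) / 2)) *
      fc c (μ + A.mulVec v) τ := by
  rw [fc_shift h hτ μ (fun i => τ * (v i : ℂ))]
  have h1 : fc c (μ + A.mulVec v) τ = ∫ y in Icc (0 : Fin 20 → ℝ) 1,
      c τ (fun i => (y i : ℂ)) * ee (-(dt (μ + A.mulVec v) (fun i => (y i : ℂ)))) := rfl
  rw [h1, ← integral_const_mul]
  refine setIntegral_congr_fun measurableSet_Icc fun y _ => ?_
  have h2 : (fun i => τ * (v i : ℂ) + ((y i : ℝ) : ℂ)) =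
      fun i => ((y i : ℝ) : ℂ) + τ * (v i : ℂ) := by
    funext i
    ring
  rw [h2, h.quasi τ (fun i => ((y i : ℝ) : ℂ)) v hτ]
  have h3 : dt μ (fun i => ((y i : ℝ) : ℂ) + τ * (v i : ℂ)) =
      dt μ (fun i => ((y i : ℝ) : ℂ)) + τ * ((dt μ v : ℤ) : ℂ) := by
    have h4 := dt_add μ (fun i => ((y i : ℝ) : ℂ)) (τ • fun i => (v i : ℂ))
    rw [dt_smul, dt_intCast] at h4
    exact h4
  rw [h3, dt_add_left, dt_mulVecC, bf_intCast, bf_comm hA.symm (fun i => ((y i : ℝ) : ℂ))]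
  rw [mul_comm (ee _) (c τ _), mul_assoc, ← ee_add, mul_left_comm, ← ee_add]
  congr 2
  ring

theorem vf_mulVec (hA : PosSymm A) (h : JacobiZero A c) {τ : ℂ} (hτ : 0 < τ.im)
    (μ v : Fin 20 → ℤ) : vf A c (μ + A.mulVec v) τ = vf A c μ τ := by
  unfold vf
  rw [fc_mulVec hA h hτ μ v, ← mul_assoc, ← ee_add, bd_shift hA]
  congr 2
  push_cast
  ring

/-! ### the Fourier expansion -/

theorem fc_eq_center (h : JacobiZero A c) {τ : ℂ} (hτ : 0 < τ.im) (μ : Fin 20 → ℤ)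
    (z : Fin 20 → ℂ) : fc c μ τ * ee (dt μ z) =
      ∫ y in Set.Icc (0 : Fin 20 → ℝ) 1, c τ (fun i => z i + (y i : ℂ)) *
        ee (-(dt μ (fun i => (y i : ℂ)))) := by
  rw [fc_shift h hτ μ z, mul_comm, ← integral_const_mul]
  refine setIntegral_congr_fun measurableSet_Icc fun y _ => ?_
  have h1 : dt μ (fun i => z i + ((y i : ℝ) : ℂ)) = dt μ z + dt μ (fun i => ((y i : ℝ) : ℂ)) :=
    dt_add μ z (fun i => ((y i : ℝ) : ℂ))
  rw [h1, mul_left_comm, ← ee_add]
  congr 2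
  ring

/-- exponential decay of the Fourier coefficients, uniform on bounded sets -/
theorem fc_bound_on (h : JacobiZero A c) {τ : ℂ} (hτ : 0 < τ.im) (R : ℝ) :
    ∃ M : ℝ, ∀ z ∈ Metric.closedBall (0 : Fin 20 → ℂ) R, ∀ μ : Fin 20 → ℤ,
      ‖fc c μ τ * ee (dt μ z)‖ ≤ M * ∏ i, Real.exp (-(2 * Real.pi * |(μ i : ℝ)|)) := by
  obtain ⟨M, hM⟩ := (isCompact_closedBall (0 : Fin 20 → ℂ) (R + 2)).exists_bound_of_continuousOn
    (slice_diff h hτ).continuous.continuousOn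
  refine ⟨M, fun z hz μ => ?_⟩
  rw [mem_closedBall_zero_iff] at hz
  have hR : 0 ≤ R := (norm_nonneg z).trans hz
  set σ : Fin 20 → ℂ := fun i => ((SignType.sign (μ i) : ℤ) : ℂ) with hσ
  rw [fc_shift h hτ μ (fun i => z i - Complex.I * σ i), ← integral_mul_const]
  have h0 : ∏ i, Real.exp (-(2 * Real.pi * |(μ i : ℝ)|)) =
      Real.exp (-(2 * Real.pi * ∑ i, |(μ i : ℝ)|)) := by
    rw [← Real.exp_sum]
    congr 1
    rw [Finset.mul_sum, Finset.sum_neg_distrib]
  have hσμ : dt μ σ = ((∑ i, |(μ i : ℝ)| : ℝ) : ℂ) := by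
    unfold dt
    push_cast
    refine Finset.sum_congr rfl fun i _ => ?_
    rw [hσ]
    simp only
    rw [← Int.cast_mul]
    have : μ i * ((SignType.sign (μ i) : ℤ)) = |μ i| := by
      rw [mul_comm]
      exact sign_mul_self (μ i)
    rw [this]
    norm_cast
  have hσn : ∀ i, ‖σ i‖ ≤ 1 := by
    intro i
    rw [hσ]
    simp only
    rcases SignType.sign (μ i) with _ | _ | _ <;> simp
  have key : ∀ y ∈ Icc (0 : Fin 20 → ℝ) 1,
      ‖c τ (fun i => z i - Complex.I * σ i + ((y i : ℝ) : ℂ)) *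
        ee (-(dt μ (fun i => z i - Complex.I * σ i + ((y i : ℝ) : ℂ)))) * ee (dt μ z)‖ ≤
      M * Real.exp (-(2 * Real.pi * ∑ i, |(μ i : ℝ)|)) := by
    intro y hy
    rw [mul_assoc, ← ee_add, norm_mul]
    have e1 : -(dt μ (fun i => z i - Complex.I * σ i + ((y i : ℝ) : ℂ))) + dt μ z =
        Complex.I * ((∑ i, |(μ i : ℝ)| : ℝ) : ℂ) - ((dt μ y : ℝ) : ℂ) := by
      have h2 : (fun i => z i - Complex.I * σ i + ((y i : ℝ) : ℂ)) =
          (z + (-Complex.I) • σ) + (fun i => ((y i : ℝ) : ℂ)) := by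
        funext i
        simp only [Pi.add_apply, Pi.smul_apply, smul_eq_mul]
        ring
      rw [h2, dt_add, dt_add, dt_smul, hσμ]
      have h3 : dt μ (fun i => ((y i : ℝ) : ℂ)) = ((dt μ y : ℝ) : ℂ) := by
        simp [dt]
      rw [h3]
      ring
    rw [e1, norm_ee]
    refine mul_le_mul ?_ ?_ (Real.exp_pos _).le ((norm_nonneg _).trans (hM 0 ?_))
    · refine hM _ ?_
      rw [mem_closedBall_zero_iff, pi_norm_le_iff_of_nonneg (by linarith)]
      intro i
      have h5 : ‖((y i : ℝ) : ℂ)‖ ≤ 1 := by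
        rw [Complex.norm_real, Real.norm_eq_abs, abs_le]
        have := hy.1 i
        have := hy.2 i
        simp only [Pi.zero_apply, Pi.one_apply] at *
        constructor <;> linarith
      calc ‖z i - Complex.I * σ i + ((y i : ℝ) : ℂ)‖
          ≤ ‖z i - Complex.I * σ i‖ + ‖((y i : ℝ) : ℂ)‖ := norm_add_le _ _
        _ ≤ (R + 1) + 1 := by
            refine add_le_add ((norm_sub_le _ _).trans (add_le_add ?_ ?_)) h5
            · exact (norm_le_pi_norm z i).trans hz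
            · rw [norm_mul, Complex.norm_I, one_mul]
              exact hσn i
        _ = R + 2 := by ring
    · refine le_of_eq ?_
      congr 1
      simp
    · simp
      linarith
  rw [h0]
  have := norm_setIntegral_le_of_norm_le_const (μ := (volume : Measure (Fin 20 → ℝ)))
    (s := Icc (0 : Fin 20 → ℝ) 1) isCompact_Icc.measure_lt_top key
  refine this.trans (le_of_eq ?_)
  have hv : (volume : Measure (Fin 20 → ℝ)).real (Icc (0 : Fin 20 → ℝ) 1) = 1 := by
    rw [Measure.real, Real.volume_Icc_pi]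
    simp
  rw [hv, mul_one]

/-- exponential decay of the Fourier coefficients -/
theorem fc_bound (h : JacobiZero A c) {τ : ℂ} (hτ : 0 < τ.im) (z : Fin 20 → ℂ) :
    ∃ M : ℝ, ∀ μ : Fin 20 → ℤ, ‖fc c μ τ * ee (dt μ z)‖ ≤
      M * ∏ i, Real.exp (-(2 * Real.pi * |(μ i : ℝ)|)) := by
  obtain ⟨M, hM⟩ := fc_bound_on h hτ ‖z‖
  exact ⟨M, fun μ => hM z (by simp) μ⟩

theorem fourier_expansion (h : JacobiZero A c) {τ : ℂ} (hτ : 0 < τ.im) (z : Fin 20 → ℂ) :
    HasSum (fun μ : Fin 20 → ℤ => fc c μ τ * ee (dt μ z)) (c τ z) := by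
  obtain ⟨H, hH⟩ := descend_cont (h := fun y : Fin 20 → ℝ => c τ (fun i => z i + (y i : ℂ)))
    ((slice_diff h hτ).continuous.comp (by fun_prop)) (by
      intro y v
      have := h.perz τ (fun i => z i + (y i : ℂ)) v hτ
      rw [← this]
      congr 1
      funext i
      push_cast
      ring)
  have hcoef : ∀ μ, UnitAddTorus.mFourierCoeff H μ = fc c μ τ * ee (dt μ z) := by
    intro μ
    rw [UnitAddTorus.mFourierCoeff_eq_integral _ _ 0, fc_eq_center h hτ]
    rw [← integral_cu]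
    refine setIntegral_congr_fun ?_ fun y _ => ?_
    · have : {x : Fin 20 → ℝ | ∀ i, x i ∈ Ioc ((0 : Fin 20 → ℝ) i) ((0 : Fin 20 → ℝ) i + 1)} =
        Set.univ.pi fun i => Ioc ((0 : Fin 20 → ℝ) i) ((0 : Fin 20 → ℝ) i + 1) := by
        ext x
        simp
      rw [this]
      exact MeasurableSet.univ_pi fun _ => measurableSet_Ioc
    · have h1 := mFourier_mk (-μ) y
      have h2 := hH y
      unfold R396.F.mk at h1 h2
      rw [h1, h2, smul_eq_mul, mul_comm]
      congr 2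
      simp [dt]
  have hs : Summable (UnitAddTorus.mFourierCoeff H) := by
    obtain ⟨M, hM⟩ := fc_bound h hτ z
    refine Summable.of_norm_bounded ((summable_prod_exp 20).mul_left M) fun μ => ?_
    rw [hcoef]
    exact hM μ
  have := UnitAddTorus.hasSum_mFourier_series_apply_of_summable hs (R396.F.mk 0)
  rw [hH 0] at this
  convert this using 1
  · funext μ
    rw [hcoef, mFourier_mk]
    have : dt μ (fun i => (((0 : Fin 20 → ℝ) i : ℝ) : ℂ)) = 0 := by simp [dt]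
    rw [this, ee_zero, smul_eq_mul, mul_one]
  · congr 1
    funext i
    simp

theorem jobTheta1 : JobTheta1 := fun _ _ hA h =>
  ⟨fun μ => fc_diff h μ, fun μ _ hτ => fc_per h hτ μ, fun μ _ w hτ => fc_shift h hτ μ w,
    fun μ v _ hτ => vf_mulVec hA h hτ μ v, fun _ z hτ => fourier_expansion h hτ z⟩

end

end Pool.Agent.U261.RL
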